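import Pool.Agent.MP_5168f5_an.H41.Chart

/-!
The exact norm of the Kakeya maximal operator over `ℤ / N ℤ` in every dimension `n + 1`.
-/

namespace Pool.Agent.Results.MP_5168f5_an.ExactModN

open Pool.Agent.MP_5168f5_an.H41

theorem result (N n : ℕ) [NeZero N] :
    IsLeast {C : ℝ | ∀ (c : Fin (n + 1) → ZMod N) (f : (Fin (n + 1) → ZMod N) → ℝ),
      ∑ u ∈ Finset.univ.filter (fun u : Fin (n + 1) → ZMod N => c ⬝ᵥ u = 1),
        (⨆ a : Fin (n + 1) → ZMod N, ∑ t : ZMod N, |f (a + t • u)|) ^ (n + 1) ≤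
          C * ∑ z : Fin (n + 1) → ZMod N, |f z| ^ (n + 1)}
      ((∑ t ∈ Finset.range N, (Nat.gcd t N : ℝ)) ^ n) := by
  have hP : (∑ t ∈ Finset.range N, (Nat.gcd t N : ℝ)) = pil N := by rw [pil, Nat.cast_sum]
  rw [hP]
  refine ⟨fun c f => ?_, fun C hC => ?_⟩
  · choose a ha using fun u : Fin (n + 1) → ZMod N =>
      exists_eq_ciSup_of_finite (f := fun a => ∑ t : ZMod N, |f (a + t • u)|)
    have h := (upper n N).ch (by positivity) c (fun z => |f z|) a fun _ => abs_nonneg _
    simpa only [ha] using h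
  · rw [pil_eq]
    refine lower (Ch.mx fun f a hf => ?_)
    have h := hC (Pi.single 0 1) f
    simp only [abs_of_nonneg (hf _)] at h
    refine le_trans (Finset.sum_le_sum fun u _ => pow_le_pow_left₀
      (Finset.sum_nonneg fun _ _ => hf _) ?_ _) h
    exact le_ciSup (f := fun a => ∑ t : ZMod N, f (a + t • u)) (Finite.bddAbove_range _) (a u)

end Pool.Agent.Results.MP_5168f5_an.ExactModN
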