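import Pool.Agent.MP_5168f5_an.QA.All
import Pool.Agent.MP_5168f5_an.MX.Meas

/-! The Kakeya maximal function conjecture in every dimension. -/

open MeasureTheory
open scoped ENNReal

namespace Pool.Agent.Results.MP_5168f5_an.KakeyaMaximal

open Pool.Agent.MP_5168f5_an.H20

theorem result : ∀ n : ℕ, 3 ≤ n → ∀ ε : ℝ, 0 < ε → ∃ C : ℝ,
    ∀ f : EuclideanSpace ℝ (Fin n) → ℝ, MemLp f n volume → ∀ δ : ℝ, 0 < δ → δ < 1 →
      Measurable (kakeyaMax δ f) ∧
      eLpNorm (kakeyaMax δ f) n volume.toSphere ≤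
        ENNReal.ofReal (C * δ ^ (-ε)) * eLpNorm f n volume :=
  Pool.Agent.MP_5168f5_an.MX.q1_of_mu Pool.Agent.MP_5168f5_an.QA.muK

end Pool.Agent.Results.MP_5168f5_an.KakeyaMaximal
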